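import Pool.Agent.CurveApprox.Main

open Real Finset Filter
open scoped ENNReal

namespace Pool.Agent.CurveApprox

noncomputable section

/-- `T` is a real trigonometric polynomial of degree at most `n`. -/
def IsTrigPoly (n : ℕ) (T : ℝ → ℝ) : Prop :=
  ∃ a b : ℕ → ℝ, ∀ t, T t = ∑ k ∈ range (n+1), (a k * Real.cos (k*t) + b k * Real.sin (k*t))

/-- Trigonometric polynomial curves of degree at most `n` (as subsets of the plane). -/
def trigCurves (n : ℕ) : Set (Set (ℝ × ℝ)) :=
  {A | ∃ T S : ℝ → ℝ, IsTrigPoly n T ∧ IsTrigPoly n S ∧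
    A = (fun t => (T t, S t)) '' Set.Icc 0 (2*π)}

/-- Algebraic polynomial curves of degree at most `n` (as subsets of the plane). -/
def polyCurves (n : ℕ) : Set (Set (ℝ × ℝ)) :=
  {A | ∃ P Q : Polynomial ℝ, P.natDegree ≤ n ∧ Q.natDegree ≤ n ∧
    A = (fun t => (P.eval t, Q.eval t)) '' Set.Icc (0:ℝ) 1}

/-- Images of continuous maps of the unit interval to the plane of Euclidean length at most one. -/
def Gamma1 : Set (Set (ℝ × ℝ)) :=
  {A | ∃ φ : ℝ → EuclideanSpace ℝ (Fin 2), ContinuousOn φ (Set.Icc 0 1) ∧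
    eVariationOn φ (Set.Icc 0 1) ≤ 1 ∧ A = (fun t => (φ t 0, φ t 1)) '' Set.Icc 0 1}

/-- `E(W; Γ)`: supremum over `A ∈ Γ` of the infimum over `B ∈ W` of the Hausdorff distance
for the max norm of the plane. -/
def dev (W Γ : Set (Set (ℝ × ℝ))) : ℝ≥0∞ := ⨆ A ∈ Γ, ⨅ B ∈ W, Metric.hausdorffEDist A B

/-- quantitative discretisation of a curve in `Gamma1` -/
lemma discretize (φ : ℝ → EuclideanSpace ℝ (Fin 2)) (hc : ContinuousOn φ (Set.Icc 0 1))
    (hv : eVariationOn φ (Set.Icc 0 1) ≤ 1) (ε : ℝ) (hε : 0 < ε) :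
    ∃ h : Fin 2 → ℝ → ℝ, (∀ c u v, |h c u - h c v| ≤ |u - v|) ∧
      (∀ t ∈ Set.Icc (0:ℝ) 1, ∃ u ∈ Set.Icc (0:ℝ) 1, ∀ c, |φ t c - h c u| ≤ ε) ∧
      (∀ u ∈ Set.Icc (0:ℝ) 1, ∃ t ∈ Set.Icc (0:ℝ) 1, ∀ c, |φ t c - h c u| ≤ ε) := by
  -- uniform continuity
  have huc : UniformContinuousOn φ (Set.Icc 0 1) := isCompact_Icc.uniformContinuousOn_of_continuous hc
  rw [Metric.uniformContinuousOn_iff] at huc
  obtain ⟨δ, hδ, hδ'⟩ := huc ε hε
  obtain ⟨N, hN⟩ := exists_nat_gt (1/δ)
  have hNpos : (0:ℝ) < N := lt_trans (by positivity) hN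
  have hNδ : 1/(N:ℝ) < δ := by
    rw [div_lt_iff₀ hNpos]
    rw [div_lt_iff₀ hδ] at hN
    linarith
  set t : ℕ → ℝ := fun i => min ((i:ℝ)/N) 1 with ht
  have htmem : ∀ i, t i ∈ Set.Icc (0:ℝ) 1 := fun i => ⟨le_min (by positivity) zero_le_one, min_le_right _ _⟩
  have htmono : Monotone t := by
    intro i j hij
    apply min_le_min_right
    have : (i:ℝ) ≤ j := by exact_mod_cast hij
    gcongr
  set p : ℕ → EuclideanSpace ℝ (Fin 2) := fun i => φ (t i) with hp
  set v : ℕ → ℝ := fun i => ∑ j ∈ range i, dist (p j) (p (j+1)) with hvdef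
  have hvle : ∀ i, v i ≤ 1 := by
    intro i
    have h1 := eVariationOn.sum_le (f := φ) (s := Set.Icc 0 1) (n := i) htmono htmem
    have h2 : ENNReal.ofReal (v i) ≤ 1 := by
      rw [hvdef, ENNReal.ofReal_sum_of_nonneg (fun _ _ => dist_nonneg)]
      refine le_trans (le_of_eq ?_) (h1.trans hv)
      refine Finset.sum_congr rfl fun j _ => ?_
      rw [← edist_dist, edist_comm]
    rw [← ENNReal.ofReal_one] at h2
    exact (ENNReal.ofReal_le_ofReal_iff zero_le_one).mp h2
  have hvmono : Monotone v := by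
    apply monotone_nat_of_le_succ
    intro i
    rw [hvdef]
    simp only
    rw [Finset.sum_range_succ]
    have := dist_nonneg (x := p i) (y := p (i+1))
    linarith
  have hv0 : v 0 = 0 := by simp [hvdef]
  have hdist : ∀ i j, i ≤ j → dist (p i) (p j) ≤ v j - v i := by
    intro i j hij
    have h1 := dist_le_Ico_sum_dist p hij
    rw [hvdef]
    simp only
    rw [← Finset.sum_Ico_eq_sub _ hij]
    exact h1
  have hdist' : ∀ i j, dist (p i) (p j) ≤ |v i - v j| := by
    intro i j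
    rcases le_total i j with h | h
    · rw [abs_sub_comm]
      exact (hdist i j h).trans (le_abs_self _)
    · rw [dist_comm]
      exact (hdist j i h).trans (le_abs_self _)
  have hcoord : ∀ (x y : EuclideanSpace ℝ (Fin 2)) (c : Fin 2), |x c - y c| ≤ dist x y := by
    intro x y c
    have h1 := EuclideanSpace.norm_eq (x - y)
    rw [dist_eq_norm]
    have h2 := PiLp.norm_apply_le (x - y) c
    simpa [Real.norm_eq_abs] using h2
  -- extension
  have hext : ∀ c : Fin 2, ∃ g : ℝ → ℝ, (∀ u w, |g u - g w| ≤ |u - w|) ∧ ∀ i, g (v i) = p i c := by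
    intro c
    have hinv : ∀ i, v (Function.invFun v (v i)) = v i := fun i => Function.invFun_eq ⟨i, rfl⟩
    have hL : LipschitzOnWith 1 (fun u => p (Function.invFun v u) c) (Set.range v) := by
      apply LipschitzOnWith.of_dist_le_mul
      rintro _ ⟨i, rfl⟩ _ ⟨j, rfl⟩
      rw [Real.dist_eq, Real.dist_eq, NNReal.coe_one, one_mul]
      refine (hcoord _ _ c).trans ((hdist' _ _).trans ?_)
      rw [hinv, hinv]
    obtain ⟨g, hg, hgeq⟩ := hL.extend_real
    refine ⟨g, fun u w => ?_, fun i => ?_⟩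
    · have := hg.dist_le_mul u w
      simpa [Real.dist_eq] using this
    · rw [← hgeq ⟨i, rfl⟩]
      have h1 : |p (Function.invFun v (v i)) c - p i c| ≤ 0 := by
        refine (hcoord _ _ c).trans ((hdist' _ _).trans ?_)
        rw [hinv, sub_self, abs_zero]
      have := abs_nonpos_iff.mp h1
      linarith
  choose g hg hgv using hext
  set ℓ : ℝ := v N with hℓ
  have hℓ0 : 0 ≤ ℓ := by rw [← hv0]; exact hvmono (Nat.zero_le _)
  have hℓ1 : ℓ ≤ 1 := hvle N
  have hstep : ∀ i, dist (p i) (p (i+1)) ≤ ε := by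
    intro i
    apply le_of_lt
    apply hδ' _ (htmem _) _ (htmem _)
    refine lt_of_le_of_lt ?_ hNδ
    rw [Real.dist_eq]
    refine (abs_min_sub_min_le_max _ _ _ _).trans ?_
    rw [sub_self, abs_zero]
    apply max_le _ (by positivity)
    push_cast
    rw [← sub_div, abs_div, abs_of_pos hNpos]
    simp
  refine ⟨fun c u => g c (ℓ * u), ?_, ?_, ?_⟩
  · intro c u w
    refine (hg c _ _).trans ?_
    rw [← mul_sub, abs_mul, abs_of_nonneg hℓ0]
    have := abs_nonneg (u - w)
    nlinarith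
  · intro s hs
    set i : ℕ := ⌊s * N⌋₊ with hi
    have h1 : (i:ℝ) ≤ s * N := Nat.floor_le (mul_nonneg hs.1 hNpos.le)
    have h2 : s * N < i + 1 := Nat.lt_floor_add_one _
    have hiN : i ≤ N := by
      have : (i:ℝ) ≤ N := h1.trans (by nlinarith [hs.2])
      exact_mod_cast this
    have hti : t i = i/N := by
      rw [ht]
      simp only
      apply min_eq_left
      rw [div_le_one hNpos]
      exact_mod_cast hiN
    have hd : dist (φ s) (p i) ≤ ε := by
      apply le_of_lt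
      apply hδ' _ hs _ (htmem _)
      refine lt_of_le_of_lt ?_ hNδ
      rw [Real.dist_eq, hti, abs_of_nonneg]
      · rw [sub_le_iff_le_add, ← add_div, le_div_iff₀ hNpos]
        linarith
      · rw [sub_nonneg, div_le_iff₀ hNpos]
        exact h1
    have hvi : v i ≤ ℓ := hvmono hiN
    have hvi0 : 0 ≤ v i := by rw [← hv0]; exact hvmono (Nat.zero_le _)
    rcases eq_or_lt_of_le hℓ0 with h0 | h0
    · refine ⟨0, ⟨le_rfl, zero_le_one⟩, fun c => ?_⟩
      have : v i = ℓ * 0 := by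
        rw [mul_zero]; linarith
      simp only
      rw [← this, hgv]
      exact (hcoord _ _ c).trans hd
    · refine ⟨v i/ℓ, ⟨by positivity, by rw [div_le_one h0]; exact hvi⟩, fun c => ?_⟩
      have : ℓ * (v i/ℓ) = v i := by field_simp
      simp only
      rw [this, hgv]
      exact (hcoord _ _ c).trans hd
  · intro u hu
    have hw0 : 0 ≤ ℓ * u := mul_nonneg hℓ0 hu.1
    have hwℓ : ℓ * u ≤ ℓ := by nlinarith [hu.2]
    -- discrete intermediate value
    have hIVT : ∃ i, v i ≤ ℓ * u ∧ ℓ * u ≤ v (i+1) := by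
      by_contra hcon
      push Not at hcon
      have : ∀ i, v i ≤ ℓ * u := by
        intro i
        induction i with
        | zero => rw [hv0]; exact hw0
        | succ i ih => exact (hcon i ih).le
      have h3 := hcon N (this N)
      have h4 : v (N+1) ≤ ℓ := by
        have h5 : t N = 1 := by
          rw [ht]; simp [div_self hNpos.ne']
        have h6 : t (N+1) = 1 := by
          have := htmono (Nat.le_succ N)
          have h7 := (htmem (N+1)).2
          have : t N ≤ t (N+1) := this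
          linarith
        have h8 : v (N+1) = v N + dist (p N) (p (N+1)) := by
          rw [hvdef]; simp only; rw [Finset.sum_range_succ]
        have h9 : dist (p N) (p (N+1)) = 0 := by
          rw [hp]; simp only; rw [h5, h6, dist_self]
        rw [h8, h9, add_zero]
      have h10 : v (N+1) < ℓ * u := h3
      have h11 := this (N)
      have h12 : v (N+1) = ℓ := le_antisymm h4 (hvmono (Nat.le_succ N))
      linarith
    obtain ⟨i, hi1, hi2⟩ := hIVT
    refine ⟨t i, htmem i, fun c => ?_⟩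
    have h1 : |p i c - g c (ℓ*u)| ≤ |v i - ℓ*u| := by
      rw [← hgv c i]
      exact hg c _ _
    refine h1.trans ?_
    rw [abs_sub_comm, abs_of_nonneg (by linarith)]
    have h2 : v (i+1) = v i + dist (p i) (p (i+1)) := by
      rw [hvdef]; simp only; rw [Finset.sum_range_succ]
    have := hstep i
    linarith

/-- the approximation property with constant `lam` in degree `n` -/
def ApproxProp (n : ℕ) (lam : ℝ) : Prop :=
  ∀ h : ℝ → ℝ, (∀ u v, |h u - h v| ≤ |u - v|) → ∃ a : ℕ → ℝ, ∀ x : ℝ,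
    |h (‖(x : AddCircle (2*π))‖ / π) - ∑ k ∈ range (n+1), a k * Real.cos (k * x)| ≤ lam

lemma edist_le_of_coord {a b : ℝ × ℝ} {r : ℝ} (h1 : |a.1 - b.1| ≤ r) (h2 : |a.2 - b.2| ≤ r) :
    edist a b ≤ ENNReal.ofReal r := by
  rw [edist_dist]
  apply ENNReal.ofReal_le_ofReal
  rw [Prod.dist_eq, Real.dist_eq, Real.dist_eq]
  exact max_le h1 h2

lemma haus_le (φ : ℝ → EuclideanSpace ℝ (Fin 2)) (hc : ContinuousOn φ (Set.Icc 0 1))
    (hv : eVariationOn φ (Set.Icc 0 1) ≤ 1) (ε : ℝ) (hε : 0 < ε) (n : ℕ) (lam : ℝ)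
    (hA : ApproxProp n lam) :
    ∃ a : Fin 2 → ℕ → ℝ, ∀ B : Set (ℝ × ℝ),
      (∀ x ∈ Set.Icc (0:ℝ) π, (∑ k ∈ range (n+1), a 0 k * Real.cos (k * x),
        ∑ k ∈ range (n+1), a 1 k * Real.cos (k * x)) ∈ B) →
      (∀ b ∈ B, ∃ x : ℝ, b = (∑ k ∈ range (n+1), a 0 k * Real.cos (k * x),
        ∑ k ∈ range (n+1), a 1 k * Real.cos (k * x))) →
      Metric.hausdorffEDist ((fun t => (φ t 0, φ t 1)) '' Set.Icc (0:ℝ) 1) B ≤ ENNReal.ofReal (lam + ε) := by
  obtain ⟨h, hL, h1, h2⟩ := discretize φ hc hv ε hε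
  choose a ha using fun c => hA (h c) (hL c)
  have hpi := Real.pi_pos
  refine ⟨a, fun B hB1 hB2 => ?_⟩
  apply Metric.hausdorffEDist_le_of_mem_edist
  · rintro _ ⟨t, ht, rfl⟩
    obtain ⟨u, hu, hu'⟩ := h1 t ht
    refine ⟨_, hB1 (π * u) ⟨by nlinarith [hu.1], by nlinarith [hu.2]⟩, ?_⟩
    have hnorm : ‖((π * u : ℝ) : AddCircle (2*π))‖ / π = u := by
      have : ‖((π * u : ℝ) : AddCircle (2*π))‖ = |π * u| := by
        rw [AddCircle.norm_coe_eq_abs_iff _ (by positivity)]
        rw [abs_of_nonneg (mul_nonneg hpi.le hu.1), abs_of_pos (by positivity : 0 < 2*π)]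
        nlinarith [hu.2]
      rw [this, abs_of_nonneg (mul_nonneg hpi.le hu.1)]
      field_simp
    have key : ∀ c : Fin 2, |φ t c - ∑ k ∈ range (n+1), a c k * Real.cos (k * (π * u))| ≤ lam + ε := by
      intro c
      have e1 := ha c (π * u)
      rw [hnorm] at e1
      have e2 := hu' c
      have e3 : φ t c - ∑ k ∈ range (n+1), a c k * Real.cos (k * (π * u))
          = (φ t c - h c u) + (h c u - ∑ k ∈ range (n+1), a c k * Real.cos (k * (π * u))) := by ring
      rw [e3]
      exact (abs_add_le _ _).trans (by linarith)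
    exact edist_le_of_coord (key 0) (key 1)
  · intro b hb
    obtain ⟨x, rfl⟩ := hB2 b hb
    have hu : ‖(x : AddCircle (2*π))‖ / π ∈ Set.Icc (0:ℝ) 1 := by
      constructor
      · positivity
      · rw [div_le_one hpi]
        have := AddCircle.norm_le_half_period (2*π) (x := (x : AddCircle (2*π))) (by positivity)
        rw [abs_of_pos (by positivity : 0 < 2*π)] at this
        linarith
    obtain ⟨t, ht, ht'⟩ := h2 _ hu
    refine ⟨_, ⟨t, ht, rfl⟩, ?_⟩
    have key : ∀ c : Fin 2, |∑ k ∈ range (n+1), a c k * Real.cos (k * x) - φ t c| ≤ lam + ε := by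
      intro c
      have e1 := ha c x
      have e2 := ht' c
      rw [abs_sub_comm] at e1 e2 ⊢
      have e3 : φ t c - ∑ k ∈ range (n+1), a c k * Real.cos (k * x)
          = (φ t c - h c (‖(x : AddCircle (2*π))‖ / π))
            + (h c (‖(x : AddCircle (2*π))‖ / π) - ∑ k ∈ range (n+1), a c k * Real.cos (k * x)) := by ring
      rw [e3]
      refine (abs_add_le _ _).trans ?_
      rw [abs_sub_comm] at e1 e2
      linarith
    exact edist_le_of_coord (key 0) (key 1)

theorem dev_trig_le (n : ℕ) (lam : ℝ) (hl : 0 ≤ lam) (hA : ApproxProp n lam) :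
    dev (trigCurves n) Gamma1 ≤ ENNReal.ofReal lam := by
  unfold dev
  refine iSup₂_le fun A hA' => ?_
  obtain ⟨φ, hc, hv, rfl⟩ := hA'
  apply ENNReal.le_of_forall_pos_le_add
  intro ε hε _
  obtain ⟨a, ha⟩ := haus_le φ hc hv ε (by exact_mod_cast hε) n lam hA
  have hpi := Real.pi_pos
  refine (iInf₂_le ((fun x : ℝ => (∑ k ∈ range (n+1), a 0 k * Real.cos (k * x),
        ∑ k ∈ range (n+1), a 1 k * Real.cos (k * x))) '' Set.Icc 0 (2*π)) ?_).trans ?_
  · refine ⟨_, _, ⟨a 0, 0, fun t => ?_⟩, ⟨a 1, 0, fun t => ?_⟩, rfl⟩ <;> simp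
  · have h1 := ha ((fun x : ℝ => (∑ k ∈ range (n+1), a 0 k * Real.cos (k * x),
        ∑ k ∈ range (n+1), a 1 k * Real.cos (k * x))) '' Set.Icc 0 (2*π)) ?_ ?_
    · rw [ENNReal.ofReal_add hl ε.coe_nonneg, ENNReal.ofReal_coe_nnreal] at h1
      exact h1
    · intro x hx
      exact ⟨x, ⟨hx.1, by linarith [hx.2]⟩, rfl⟩
    · rintro _ ⟨x, _, rfl⟩
      exact ⟨x, rfl⟩

/-- polynomial whose value at `(1 + cos x)/2` is the cosine polynomial -/
def chebPoly (n : ℕ) (a : ℕ → ℝ) : Polynomial ℝ :=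
  ∑ k ∈ range (n+1), Polynomial.C (a k) *
    (Polynomial.Chebyshev.T ℝ (k:ℤ)).comp (Polynomial.C 2 * Polynomial.X - Polynomial.C 1)

lemma chebPoly_eval (n : ℕ) (a : ℕ → ℝ) (x : ℝ) :
    (chebPoly n a).eval ((1 + Real.cos x)/2) = ∑ k ∈ range (n+1), a k * Real.cos (k * x) := by
  unfold chebPoly
  rw [Polynomial.eval_finsetSum]
  refine Finset.sum_congr rfl fun k _ => ?_
  rw [Polynomial.eval_mul, Polynomial.eval_C, Polynomial.eval_comp]
  have : Polynomial.eval ((1 + Real.cos x)/2) (Polynomial.C 2 * Polynomial.X - Polynomial.C (1:ℝ)) = Real.cos x := by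
    simp
    ring
  rw [this, Polynomial.Chebyshev.T_real_cos]
  simp

lemma chebPoly_natDegree (n : ℕ) (a : ℕ → ℝ) : (chebPoly n a).natDegree ≤ n := by
  unfold chebPoly
  apply Polynomial.natDegree_sum_le_of_forall_le
  intro k hk
  refine (Polynomial.natDegree_C_mul_le _ _).trans ?_
  refine Polynomial.natDegree_comp_le.trans ?_
  have h1 : (Polynomial.Chebyshev.T ℝ (k:ℤ)).natDegree ≤ k := by
    have := Polynomial.Chebyshev.natDegree_T ℝ (k:ℤ)
    simp only [Int.natAbs_natCast] at this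
    exact this.le
  have h2 : (Polynomial.C 2 * Polynomial.X - Polynomial.C (1:ℝ)).natDegree ≤ 1 := by
    refine (Polynomial.natDegree_sub_le _ _).trans ?_
    apply max_le
    · exact (Polynomial.natDegree_C_mul_le _ _).trans Polynomial.natDegree_X_le
    · simp
  simp only [Finset.mem_range] at hk
  calc _ ≤ k * 1 := Nat.mul_le_mul h1 h2
    _ ≤ n := by omega

theorem dev_poly_le (n : ℕ) (lam : ℝ) (hl : 0 ≤ lam) (hA : ApproxProp n lam) :
    dev (polyCurves n) Gamma1 ≤ ENNReal.ofReal lam := by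
  unfold dev
  refine iSup₂_le fun A hA' => ?_
  obtain ⟨φ, hc, hv, rfl⟩ := hA'
  apply ENNReal.le_of_forall_pos_le_add
  intro ε hε _
  obtain ⟨a, ha⟩ := haus_le φ hc hv ε (by exact_mod_cast hε) n lam hA
  refine (iInf₂_le ((fun t : ℝ => ((chebPoly n (a 0)).eval t, (chebPoly n (a 1)).eval t)) '' Set.Icc (0:ℝ) 1) ?_).trans ?_
  · exact ⟨_, _, chebPoly_natDegree _ _, chebPoly_natDegree _ _, rfl⟩
  · have h1 := ha ((fun t : ℝ => ((chebPoly n (a 0)).eval t, (chebPoly n (a 1)).eval t)) '' Set.Icc (0:ℝ) 1) ?_ ?_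
    · rw [ENNReal.ofReal_add hl ε.coe_nonneg, ENNReal.ofReal_coe_nnreal] at h1
      exact h1
    · intro x _
      refine ⟨(1 + Real.cos x)/2, ⟨?_, ?_⟩, ?_⟩
      · have := Real.neg_one_le_cos x
        linarith
      · have := Real.cos_le_one x
        linarith
      · simp only
        rw [chebPoly_eval, chebPoly_eval]
    · rintro _ ⟨s, hs, rfl⟩
      refine ⟨Real.arccos (2*s - 1), ?_⟩
      simp only
      rw [← chebPoly_eval, ← chebPoly_eval, Real.cos_arccos (by linarith [hs.1]) (by linarith [hs.2])]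
      congr 2 <;> ring

end

end Pool.Agent.CurveApprox
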