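import Mathlib

open Real Finset

namespace Pool.Agent.CurveApprox

noncomputable section

lemma sum_cos_shift (N : ℕ) (hN : 0 < N) (d : ℤ) (hd : ¬ (N:ℤ) ∣ d) (x : ℝ) :
    ∑ l ∈ range N, Real.cos (d * (x - 2*π*l/N)) = 0 := by
  have hN' : (N:ℂ) ≠ 0 := by exact_mod_cast hN.ne'
  have hpi : (π:ℂ) ≠ 0 := by exact_mod_cast Real.pi_ne_zero
  set ω : ℂ := Complex.exp (-(2*π*Complex.I*d/N)) with hω
  have h1 : ω ^ N = 1 := by
    rw [hω, ← Complex.exp_nat_mul, Complex.exp_eq_one_iff]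
    refine ⟨-d, ?_⟩
    push_cast
    field_simp
  have h2 : ω ≠ 1 := by
    intro h
    rw [hω, Complex.exp_eq_one_iff] at h
    obtain ⟨k, hk⟩ := h
    apply hd
    refine ⟨-k, ?_⟩
    have hI := Complex.I_ne_zero
    have h3 : (d:ℂ) = (N:ℂ) * (-(k:ℂ)) := by
      have h4 : -(2 * (π:ℂ) * Complex.I * d / N) * N = (k:ℂ) * (2 * π * Complex.I) * N := by rw [hk]
      have h5 : -(2 * (π:ℂ) * Complex.I * d / N) * N = -(2 * (π:ℂ) * Complex.I) * d := by
        field_simp
      rw [h5] at h4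
      have h6 : (2 * (π:ℂ) * Complex.I) ≠ 0 := by
        simp [hpi]
      apply mul_left_cancel₀ h6
      linear_combination -h4
    exact_mod_cast h3
  have h3 : ∑ l ∈ range N, ω ^ l = 0 := by
    have := geom_sum_mul ω N
    rw [h1, sub_self] at this
    exact (mul_eq_zero.mp this).resolve_right (sub_ne_zero.mpr h2)
  have h4 : ∀ l ∈ range N, Real.cos (d * (x - 2*π*l/N))
      = (Complex.exp (d * x * Complex.I) * ω ^ l).re := by
    intro l _
    rw [hω, ← Complex.exp_nat_mul, ← Complex.exp_add]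
    have : (d:ℂ) * x * Complex.I + l * -(2 * π * Complex.I * d / N)
        = ((d * (x - 2*π*l/N) : ℝ) : ℂ) * Complex.I := by
      push_cast
      ring
    rw [this, Complex.exp_ofReal_mul_I_re]
  rw [Finset.sum_congr rfl h4, ← Complex.re_sum, ← Finset.mul_sum, h3, mul_zero, Complex.zero_re]

lemma sum_cos_ite (N : ℕ) (d : ℤ) (hd : |d| < N) (x : ℝ) :
    ∑ l ∈ range N, Real.cos (d * (x - 2*π*l/N)) = if d = 0 then (N:ℝ) else 0 := by
  split_ifs with h
  · subst h
    simp
  · have hN : 0 < N := by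
      have := abs_nonneg d
      omega
    apply sum_cos_shift N hN d _ x
    intro hdv
    exact h (Int.eq_zero_of_abs_lt_dvd hdv hd)

/-- weights -/
def wt (n : ℕ) (k : ℕ) : ℝ := Real.sin ((k+1) * (π/(n+2)))

/-- kernel -/
def ker (n : ℕ) (y : ℝ) : ℝ :=
  ∑ j ∈ range (n+1), ∑ k ∈ range (n+1), wt n j * wt n k * Real.cos (((j:ℤ) - (k:ℤ) : ℤ) * y)

def mass (n : ℕ) : ℝ := ∑ j ∈ range (n+1), wt n j ^ 2

lemma mass_pos (n : ℕ) : 0 < mass n := by
  unfold mass
  apply Finset.sum_pos' (fun i _ => sq_nonneg _)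
  refine ⟨0, by simp, ?_⟩
  have : 0 < wt n 0 := by
    unfold wt
    apply Real.sin_pos_of_pos_of_lt_pi
    · have := Real.pi_pos
      positivity
    · have := Real.pi_pos
      simp only [Nat.cast_zero, zero_add, one_mul]
      rw [div_lt_iff₀ (by positivity)]
      have : (0:ℝ) ≤ n := Nat.cast_nonneg n
      nlinarith
  positivity

lemma ker_eq (n : ℕ) (y : ℝ) : ker n y =
    (∑ j ∈ range (n+1), wt n j * Real.cos (j*y))^2 + (∑ j ∈ range (n+1), wt n j * Real.sin (j*y))^2 := by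
  unfold ker
  rw [sq, sq, Finset.sum_mul_sum, Finset.sum_mul_sum, ← Finset.sum_add_distrib]
  refine Finset.sum_congr rfl fun j _ => ?_
  rw [← Finset.sum_add_distrib]
  refine Finset.sum_congr rfl fun k _ => ?_
  have : (((j:ℤ) - (k:ℤ) : ℤ) : ℝ) * y = j * y - k * y := by push_cast; ring
  rw [this, Real.cos_sub]
  ring

lemma ker_nonneg (n : ℕ) (y : ℝ) : 0 ≤ ker n y := by
  rw [ker_eq]; positivity

lemma ker_neg (n : ℕ) (y : ℝ) : ker n (-y) = ker n y := by
  unfold ker
  refine Finset.sum_congr rfl fun j _ => Finset.sum_congr rfl fun k _ => ?_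
  rw [mul_neg, Real.cos_neg]

def node (n : ℕ) (l : ℕ) : ℝ := 2*π*l/((n+2 : ℕ):ℝ)

lemma sum_ker (n : ℕ) (x : ℝ) :
    ∑ l ∈ range (n+2), ker n (x - node n l) = (n+2 : ℕ) * mass n := by
  unfold ker node mass
  rw [Finset.sum_comm]
  rw [Finset.mul_sum]
  refine Finset.sum_congr rfl fun j hj => ?_
  rw [Finset.sum_comm]
  rw [Finset.sum_eq_single j]
  · rw [← Finset.mul_sum, sum_cos_ite (n+2) ((j:ℤ) - j) (by simp; positivity) x]
    simp
    ring
  · intro k hk hkj
    rw [← Finset.mul_sum, sum_cos_ite (n+2) ((j:ℤ) - k) _ x, if_neg, mul_zero]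
    · omega
    · rw [abs_lt]
      simp only [Finset.mem_range] at hj hk
      constructor <;> push_cast <;> omega
  · intro h
    exact absurd hj h

lemma wt_rec (n : ℕ) (j : ℕ) :
    wt n (j+1) + Real.sin (j * (π/(n+2))) = 2 * Real.cos (π/(n+2)) * wt n j := by
  unfold wt
  have h1 : (((j+1 : ℕ):ℝ) + 1) * (π/(n+2)) = (j+1) * (π/(n+2)) + π/(n+2) := by push_cast; ring
  have h2 : (j:ℝ) * (π/(n+2)) = (j+1) * (π/(n+2)) - π/(n+2) := by ring
  rw [h1, h2, Real.sin_add, Real.sin_sub]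
  ring

lemma wt_end (n : ℕ) : wt n (n+1) = 0 := by
  unfold wt
  have : (((n+1 : ℕ):ℝ) + 1) * (π/(n+2)) = π := by
    have : ((n:ℝ)+2) ≠ 0 := by positivity
    push_cast
    field_simp
    ring
  rw [this, Real.sin_pi]

lemma prod_cos (d : ℤ) (y : ℝ) : Real.cos ((d:ℝ) * y) * Real.cos y
    = (Real.cos ((d + 1 : ℤ) * y) + Real.cos ((d - 1 : ℤ) * y)) / 2 := by
  have a1 : ((d + 1 : ℤ) : ℝ) * y = (d:ℝ) * y + y := by push_cast; ring
  have a2 : ((d - 1 : ℤ) : ℝ) * y = (d:ℝ) * y - y := by push_cast; ring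
  rw [a1, a2, Real.cos_add, Real.cos_sub]
  ring

lemma sum_ker_cos (n : ℕ) (x : ℝ) :
    ∑ l ∈ range (n+2), ker n (x - node n l) * Real.cos (x - node n l)
      = (n+2 : ℕ) * mass n * Real.cos (π/(n+2)) := by
  have hterm : ∀ j ∈ range (n+1),
      ∑ l ∈ range (n+2), ∑ k ∈ range (n+1),
        wt n j * wt n k * Real.cos (((j:ℤ) - (k:ℤ) : ℤ) * (x - node n l)) * Real.cos (x - node n l)
      = ((n+2 : ℕ):ℝ) * (wt n j ^ 2 * Real.cos (π/(n+2))) := by
    intro j hj
    rw [Finset.sum_comm]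
    have hk : ∀ k ∈ range (n+1),
        ∑ l ∈ range (n+2), wt n j * wt n k * Real.cos (((j:ℤ) - (k:ℤ) : ℤ) * (x - node n l)) * Real.cos (x - node n l)
        = (if k = j + 1 then ((n+2:ℕ):ℝ)/2 * (wt n j * wt n k) else 0)
          + (if j = k + 1 then ((n+2:ℕ):ℝ)/2 * (wt n j * wt n k) else 0) := by
      intro k hk
      simp only [Finset.mem_range] at hj hk
      have e1 : ∀ l ∈ range (n+2),
          wt n j * wt n k * Real.cos (((j:ℤ) - (k:ℤ) : ℤ) * (x - node n l)) * Real.cos (x - node n l)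
          = wt n j * wt n k / 2 * (Real.cos (((j:ℤ) - (k:ℤ) + 1 : ℤ) * (x - 2*π*l/((n+2:ℕ):ℝ)))
              + Real.cos (((j:ℤ) - (k:ℤ) - 1 : ℤ) * (x - 2*π*l/((n+2:ℕ):ℝ)))) := by
        intro l _
        unfold node
        have := prod_cos ((j:ℤ) - (k:ℤ)) (x - 2*π*l/((n+2:ℕ):ℝ))
        rw [mul_assoc, this]
        ring
      rw [Finset.sum_congr rfl e1, ← Finset.mul_sum, Finset.sum_add_distrib]
      rw [sum_cos_ite (n+2) ((j:ℤ) - k + 1) (by rw [abs_lt]; constructor <;> push_cast <;> omega) x]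
      rw [sum_cos_ite (n+2) ((j:ℤ) - k - 1) (by rw [abs_lt]; constructor <;> push_cast <;> omega) x]
      have c1 : ((j:ℤ) - k + 1 = 0) ↔ (k = j + 1) := by omega
      have c2 : ((j:ℤ) - k - 1 = 0) ↔ (j = k + 1) := by omega
      simp only [c1, c2]
      split_ifs <;> ring
    rw [Finset.sum_congr rfl hk, Finset.sum_add_distrib]
    have s1 : ∑ k ∈ range (n+1), (if k = j + 1 then ((n+2:ℕ):ℝ)/2 * (wt n j * wt n k) else 0)
        = ((n+2:ℕ):ℝ)/2 * (wt n j * wt n (j+1)) := by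
      rw [Finset.sum_ite_eq' (range (n+1)) (j+1)]
      split_ifs with h
      · rfl
      · simp only [Finset.mem_range] at hj h
        have : j = n := by omega
        subst this
        rw [wt_end]; ring
    have s2 : ∑ k ∈ range (n+1), (if j = k + 1 then ((n+2:ℕ):ℝ)/2 * (wt n j * wt n k) else 0)
        = ((n+2:ℕ):ℝ)/2 * (wt n j * Real.sin (j * (π/(n+2)))) := by
      rcases Nat.eq_zero_or_pos j with h0 | h0
      · subst h0
        simp
      · obtain ⟨i, rfl⟩ : ∃ i, j = i + 1 := ⟨j - 1, by omega⟩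
        rw [Finset.sum_eq_single i]
        · simp [wt]
        · intro k _ hki
          rw [if_neg]; omega
        · intro h
          simp only [Finset.mem_range] at hj h
          omega
    rw [s1, s2, ← mul_add, ← mul_add, wt_rec]
    ring
  unfold ker
  simp_rw [Finset.sum_mul]
  rw [Finset.sum_comm, Finset.sum_congr rfl hterm, ← Finset.mul_sum, ← Finset.sum_mul]
  unfold mass
  ring

lemma sum_ker_sin (n : ℕ) (x : ℝ) :
    ∑ l ∈ range (n+2), ker n (x - node n l) * |Real.sin ((x - node n l)/2)|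
      ≤ (n+2 : ℕ) * mass n * Real.sin (π/(2*(n+2))) := by
  set lam := Real.sin (π/(2*(n+2))) with hlam
  have hpos : 0 < lam := by
    apply Real.sin_pos_of_pos_of_lt_pi
    · have := Real.pi_pos
      positivity
    · have := Real.pi_pos
      rw [div_lt_iff₀ (by positivity)]
      have : (0:ℝ) ≤ n := Nat.cast_nonneg n
      nlinarith
  have h1 : ∀ y : ℝ, |Real.sin (y/2)| ≤ lam/2 + (1 - Real.cos y)/(4*lam) := by
    intro y
    have h2 : Real.cos y = 1 - 2 * |Real.sin (y/2)|^2 := by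
      rw [sq_abs]
      have := Real.cos_sq' (y/2)
      have h3 : Real.cos y = 2 * Real.cos (y/2)^2 - 1 := by
        rw [← Real.cos_two_mul]; ring_nf
      rw [h3, this]; ring
    rw [h2]
    have h4 : lam/2 + (1 - (1 - 2 * |Real.sin (y/2)|^2))/(4*lam) - |Real.sin (y/2)|
        = (|Real.sin (y/2)| - lam)^2/(2*lam) := by
      field_simp
      ring
    have h5 : 0 ≤ (|Real.sin (y/2)| - lam)^2/(2*lam) := by positivity
    linarith
  have h2 : Real.cos (π/(n+2)) = 1 - 2 * lam^2 := by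
    have h3 : Real.cos (π/(n+2)) = 2 * Real.cos (π/(2*(n+2)))^2 - 1 := by
      rw [← Real.cos_two_mul]
      congr 1
      have : ((n:ℝ)+2) ≠ 0 := by positivity
      field_simp
    rw [h3, Real.cos_sq', hlam]; ring
  calc ∑ l ∈ range (n+2), ker n (x - node n l) * |Real.sin ((x - node n l)/2)|
      ≤ ∑ l ∈ range (n+2), ker n (x - node n l) * (lam/2 + (1 - Real.cos (x - node n l))/(4*lam)) :=
        Finset.sum_le_sum fun l _ => mul_le_mul_of_nonneg_left (h1 _) (ker_nonneg _ _)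
    _ = (lam/2 + 1/(4*lam)) * (∑ l ∈ range (n+2), ker n (x - node n l))
        - 1/(4*lam) * ∑ l ∈ range (n+2), ker n (x - node n l) * Real.cos (x - node n l) := by
        rw [Finset.mul_sum, Finset.mul_sum, ← Finset.sum_sub_distrib]
        refine Finset.sum_congr rfl fun l _ => ?_
        ring
    _ = (n+2 : ℕ) * mass n * lam := by
        rw [sum_ker, sum_ker_cos, h2]
        field_simp
        ring

end

end Pool.Agent.CurveApprox
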