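import Pool.Agent.CurveApprox.Kernel

open Real Finset

namespace Pool.Agent.CurveApprox

noncomputable section

lemma norm_le_sin (y : ℝ) : ‖(y : AddCircle (2*π))‖ ≤ π * |Real.sin (y/2)| := by
  have hp : (2*π) ≠ 0 := by positivity
  have h1 := AddCircle.norm_eq (2*π) (x := y)
  have h2 := AddCircle.norm_le_half_period (2*π) (x := (y : AddCircle (2*π))) hp
  set r : ℤ := round ((2*π)⁻¹ * y) with hr
  set z : ℝ := y - r * (2*π) with hz
  rw [h1] at h2 ⊢
  have h3 : |z/2| ≤ π/2 := by
    rw [abs_div, abs_two]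
    have : |2*π| = 2*π := abs_of_pos (by positivity)
    rw [this] at h2
    linarith
  have h4 := Real.mul_abs_le_abs_sin h3
  have h5 : |Real.sin (z/2)| = |Real.sin (y/2)| := by
    have : z/2 = y/2 - r * π := by rw [hz]; ring
    rw [this, Real.sin_sub_int_mul_pi, abs_mul]
    simp
  rw [h5, abs_div, abs_two] at h4
  have hpi := Real.pi_pos
  have h6 : |z| = π * (2/π * (|z|/2)) := by field_simp
  rw [h6]
  exact mul_le_mul_of_nonneg_left h4 hpi.le

theorem cos_approx (h : ℝ → ℝ) (hh : ∀ u v, |h u - h v| ≤ |u - v|) (n : ℕ) :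
    ∃ a : ℕ → ℝ, ∀ x : ℝ,
      |h (‖(x : AddCircle (2*π))‖ / π) - ∑ k ∈ range (n+1), a k * Real.cos (k * x)|
        ≤ Real.sin (π/(2*(n+2))) := by
  set f : ℝ → ℝ := fun x => h (‖(x : AddCircle (2*π))‖ / π) with hf
  have hpi := Real.pi_pos
  have hfl : ∀ x t, |f x - f t| ≤ |Real.sin ((x - t)/2)| := by
    intro x t
    refine (hh _ _).trans ?_
    rw [← sub_div, abs_div, abs_of_pos hpi, div_le_iff₀ hpi]
    have h1 : |‖(x : AddCircle (2*π))‖ - ‖(t : AddCircle (2*π))‖| ≤ ‖(x : AddCircle (2*π)) - (t : AddCircle (2*π))‖ :=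
      abs_norm_sub_norm_le _ _
    rw [← AddCircle.coe_sub] at h1
    refine h1.trans ((norm_le_sin _).trans (le_of_eq (mul_comm _ _)))
  have hfe : ∀ x, f (-x) = f x := by
    intro x
    simp only [hf]
    rw [AddCircle.coe_neg, norm_neg]
  set M : ℝ := (n+2 : ℕ) * mass n with hM
  have hMpos : 0 < M := mul_pos (by positivity) (mass_pos n)
  set q : ℝ → ℝ := fun x => (∑ l ∈ range (n+2), f (node n l) * ker n (x - node n l)) / M with hq
  have hqe : ∀ x, |f x - q x| ≤ Real.sin (π/(2*(n+2))) := by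
    intro x
    have h1 : f x - q x = (∑ l ∈ range (n+2), ker n (x - node n l) * (f x - f (node n l))) / M := by
      rw [hq]
      simp only
      rw [eq_div_iff hMpos.ne', sub_mul, div_mul_cancel₀ _ hMpos.ne', hM, ← sum_ker n x, Finset.mul_sum,
        ← Finset.sum_sub_distrib]
      refine Finset.sum_congr rfl fun l _ => ?_
      ring
    rw [h1, abs_div, abs_of_pos hMpos, div_le_iff₀ hMpos]
    refine (Finset.abs_sum_le_sum_abs _ _).trans ?_
    calc ∑ l ∈ range (n+2), |ker n (x - node n l) * (f x - f (node n l))|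
        ≤ ∑ l ∈ range (n+2), ker n (x - node n l) * |Real.sin ((x - node n l)/2)| := by
          refine Finset.sum_le_sum fun l _ => ?_
          rw [abs_mul, abs_of_nonneg (ker_nonneg _ _)]
          exact mul_le_mul_of_nonneg_left (hfl _ _) (ker_nonneg _ _)
      _ ≤ M * Real.sin (π/(2*(n+2))) := sum_ker_sin n x
      _ = _ := mul_comm _ _
  set w : ℕ → ℕ → ℝ := fun j k =>
    (∑ l ∈ range (n+2), f (node n l) * Real.cos (((j:ℤ) - (k:ℤ) : ℤ) * node n l)) / M with hw
  have hsym : ∀ x, (q x + q (-x))/2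
      = ∑ j ∈ range (n+1), ∑ k ∈ range (n+1), wt n j * wt n k * w j k * Real.cos (((j:ℤ) - (k:ℤ) : ℤ) * x) := by
    intro x
    rw [hq, hw]
    simp only
    have h1 : ∀ l, ker n (x - node n l) + ker n (-x - node n l)
        = ∑ j ∈ range (n+1), ∑ k ∈ range (n+1),
          wt n j * wt n k * (2 * (Real.cos (((j:ℤ) - (k:ℤ) : ℤ) * x) * Real.cos (((j:ℤ) - (k:ℤ) : ℤ) * node n l))) := by
      intro l
      unfold ker
      rw [← Finset.sum_add_distrib]
      refine Finset.sum_congr rfl fun j _ => ?_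
      rw [← Finset.sum_add_distrib]
      refine Finset.sum_congr rfl fun k _ => ?_
      rw [mul_sub, mul_sub, mul_neg, Real.cos_sub, Real.cos_sub, Real.cos_neg, Real.sin_neg]
      ring
    rw [← add_div, ← Finset.sum_add_distrib]
    have h2 : ∀ l ∈ range (n+2), f (node n l) * ker n (x - node n l) + f (node n l) * ker n (-x - node n l)
        = ∑ j ∈ range (n+1), ∑ k ∈ range (n+1),
          f (node n l) * (wt n j * wt n k * (2 * (Real.cos (((j:ℤ) - (k:ℤ) : ℤ) * x) * Real.cos (((j:ℤ) - (k:ℤ) : ℤ) * node n l)))) := by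
      intro l _
      rw [← mul_add, h1, Finset.mul_sum]
      refine Finset.sum_congr rfl fun j _ => ?_
      rw [Finset.mul_sum]
    rw [Finset.sum_congr rfl h2, Finset.sum_comm, div_div, Finset.sum_div]
    refine Finset.sum_congr rfl fun j _ => ?_
    rw [Finset.sum_comm, Finset.sum_div]
    refine Finset.sum_congr rfl fun k _ => ?_
    rw [mul_div_assoc', div_mul_eq_mul_div, div_eq_div_iff (by positivity) (by positivity),
      Finset.mul_sum, Finset.sum_mul, Finset.sum_mul, Finset.sum_mul]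
    refine Finset.sum_congr rfl fun l _ => ?_
    ring
  refine ⟨fun m => ∑ j ∈ range (n+1), ∑ k ∈ range (n+1),
    if (((j:ℤ) - (k:ℤ)).natAbs = m) then wt n j * wt n k * w j k else 0, fun x => ?_⟩
  have hsum : ∑ m ∈ range (n+1), (∑ j ∈ range (n+1), ∑ k ∈ range (n+1),
      if (((j:ℤ) - (k:ℤ)).natAbs = m) then wt n j * wt n k * w j k else 0) * Real.cos (m * x)
      = (q x + q (-x))/2 := by
    rw [hsym x]
    simp_rw [Finset.sum_mul]
    rw [Finset.sum_comm]
    refine Finset.sum_congr rfl fun j hj => ?_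
    rw [Finset.sum_comm]
    refine Finset.sum_congr rfl fun k hk => ?_
    rw [Finset.sum_eq_single (((j:ℤ) - (k:ℤ)).natAbs)]
    · rw [if_pos rfl, Nat.cast_natAbs]
      congr 1
      rcases abs_choice (((j:ℤ) - (k:ℤ))) with h1 | h1
      · rw [h1]
      · rw [h1]
        push_cast
        rw [← Real.cos_neg]
        congr 1
        ring
    · intro m _ hm
      rw [if_neg (Ne.symm hm), zero_mul]
    · intro hmem
      exfalso
      apply hmem
      simp only [Finset.mem_range] at hj hk ⊢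
      omega
  rw [hsum]
  have e1 : f x - (q x + q (-x))/2 = ((f x - q x) + (f (-x) - q (-x)))/2 := by
    rw [hfe]; ring
  show |f x - (q x + q (-x))/2| ≤ _
  rw [e1, abs_div, abs_two, div_le_iff₀ (by norm_num)]
  refine (abs_add_le _ _).trans ?_
  have := hqe x
  have := hqe (-x)
  linarith

end

end Pool.Agent.CurveApprox
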